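import Pool.Agent.Helper6.TRI.Defs

/-!
# TRI block B1: the growth of the powers of a subspace generating the function field of a curve
-/

set_option autoImplicit false

namespace Pool.Agent.TRI

open Module Pool.Agent.SQ Polynomial

section

variable {k E : Type*} [Field k] [Field E] [Algebra k E]

theorem grow_ge {V : Submodule k E} [FiniteDimensional k V] (hC : Crv V) (m : ℕ) : m + 1 ≤ finrank k ↥(V ^ m) := by
  obtain ⟨x, hxV, hx⟩ := hC.tr
  have hfd : FiniteDimensional k ↥(V ^ m) :=
    (Submodule.fg_iff_finiteDimensional _).1 (((Submodule.fg_iff_finiteDimensional V).2 inferInstance).pow m)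
  have hmem : ∀ i : Fin (m + 1), x ^ (i : ℕ) ∈ V ^ m := by
    intro i
    have h1 : x ^ (i : ℕ) * 1 ^ (m - i) ∈ V ^ ((i : ℕ) + (m - i)) := by
      rw [pow_add]
      exact Submodule.mul_mem_mul (Submodule.pow_mem_pow V hxV _) (Submodule.pow_mem_pow V hC.one _)
    rw [one_pow, mul_one, show (i : ℕ) + (m - i) = m by omega] at h1
    exact h1
  have hli : LinearIndependent k (fun i : Fin (m + 1) => x ^ (i : ℕ)) := by
    rw [Fintype.linearIndependent_iff]
    intro g hg
    have h1 : aeval x (∑ i : Fin (m + 1), C (g i) * X ^ (i : ℕ)) = 0 := by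
      rw [map_sum, ← hg]
      refine Finset.sum_congr rfl fun i _ => ?_
      rw [map_mul, aeval_C, map_pow, aeval_X, Algebra.smul_def]
    have h2 := transcendental_iff.1 hx _ h1
    intro i
    have h3 := congrArg (fun p => Polynomial.coeff p (i : ℕ)) h2
    simp only [finsetSum_coeff, coeff_C_mul, coeff_X_pow, coeff_zero] at h3
    rw [Finset.sum_eq_single i] at h3
    · simpa using h3
    · intro j _ hj
      rw [if_neg (by intro h; exact hj (Fin.ext h.symm)), mul_zero]
    · intro h
      exact absurd (Finset.mem_univ i) h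
  have hli' : LinearIndependent k (fun i : Fin (m + 1) => (⟨x ^ (i : ℕ), hmem i⟩ : ↥(V ^ m))) := by
    refine LinearIndependent.of_comp (V ^ m).subtype ?_
    exact hli
  have := hli'.fintype_card_le_finrank
  simpa using this

/-- the combinations of the elements of `B` with coefficients of degree at most `n` in `x` -/
private noncomputable def gT (x : E) (B : Finset E) (n : ℕ) : Submodule k E := by
  classical
  exact Submodule.span k (((Finset.range (n + 1) ×ˢ B).image fun p => x ^ p.1 * p.2 : Finset E) : Set E)

private theorem gT_finrank (x : E) (B : Finset E) (n : ℕ) : finrank k (gT (k := k) x B n) ≤ (n + 1) * B.card := by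
  classical
  unfold gT
  refine (finrank_span_finset_le_card _).trans (Finset.card_image_le.trans ?_)
  rw [Finset.card_product, Finset.card_range]

private theorem gT_fd (x : E) (B : Finset E) (n : ℕ) : FiniteDimensional k (gT (k := k) x B n) := by
  classical
  unfold gT
  exact FiniteDimensional.span_finset k _

private theorem gT_mul (x : E) (B : Finset E) {n a : ℕ} (g : k[X]) (hg : g.natDegree ≤ a) {t : E}
    (ht : t ∈ gT (k := k) x B n) : aeval x g * t ∈ gT (k := k) x B (n + a) := by
  classical
  have ht' : t ∈ Submodule.span k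
    (((Finset.range (n + 1) ×ˢ B).image fun p => x ^ p.1 * p.2 : Finset E) : Set E) := ht
  induction ht' using Submodule.span_induction with
  | mem y hy =>
    rw [Finset.mem_coe, Finset.mem_image] at hy
    obtain ⟨⟨s, b⟩, hp, rfl⟩ := hy
    rw [Finset.mem_product, Finset.mem_range] at hp
    dsimp only at hp ⊢
    rw [aeval_eq_sum_range' (n := a + 1) (by omega), Finset.sum_mul]
    refine Submodule.sum_mem _ fun i hi => ?_
    rw [smul_mul_assoc]
    refine Submodule.smul_mem _ _ ?_
    rw [← mul_assoc, ← pow_add]
    refine Submodule.subset_span ?_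
    rw [Finset.mem_coe, Finset.mem_image]
    refine ⟨(i + s, b), ?_, rfl⟩
    rw [Finset.mem_range] at hi
    rw [Finset.mem_product, Finset.mem_range]
    exact ⟨by have := hp.1; dsimp only; omega, hp.2⟩
  | zero => rw [mul_zero]; exact Submodule.zero_mem _
  | add y z hy hz hy' hz' => rw [mul_add]; exact Submodule.add_mem _ (hy' hy) (hz' hz)
  | smul c y hy hy' => rw [mul_smul_comm]; exact Submodule.smul_mem _ _ (hy' hy)

private theorem gT_mem (x : E) (B : Finset E) {b : E} (hb : b ∈ B) : b ∈ gT (k := k) x B 0 := by
  classical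
  unfold gT
  refine Submodule.subset_span ?_
  rw [Finset.mem_coe, Finset.mem_image]
  exact ⟨(0, b), by simpa using hb, by simp⟩

private theorem gT_mono (x : E) (B : Finset E) {n m : ℕ} (h : n ≤ m) : gT (k := k) x B n ≤ gT (k := k) x B m := by
  intro t ht
  have := gT_mul x B (n := n) (a := m - n) 1 (by simp) ht
  rw [map_one, one_mul] at this
  rwa [show n + (m - n) = m by omega] at this

/-- a common denominator for a finite set -/
private theorem g_common (x : E) (B : Finset E)
    (H : ∀ y : E, ∃ (f : k[X]) (c : ℕ), f ≠ 0 ∧ aeval x f * y ∈ gT (k := k) x B c)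
    (S : Finset E) : ∃ (f : k[X]) (c : ℕ), f ≠ 0 ∧ ∀ y ∈ S, aeval x f * y ∈ gT (k := k) x B c := by
  classical
  induction S using Finset.induction_on with
  | empty => exact ⟨1, 0, one_ne_zero, by simp⟩
  | insert z S hz ih =>
    obtain ⟨f, c, hf, hc⟩ := ih
    obtain ⟨g, d, hg, hd⟩ := H z
    refine ⟨f * g, c + d + g.natDegree + f.natDegree, mul_ne_zero hf hg, fun y hy => ?_⟩
    rw [Finset.mem_insert] at hy
    rcases hy with rfl | hy
    · rw [map_mul, mul_assoc]
      exact gT_mono x B (by omega) (gT_mul x B f le_rfl hd)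
    · rw [map_mul, mul_comm (aeval x f), mul_assoc]
      exact gT_mono x B (by omega) (gT_mul x B g le_rfl (hc y hy))

theorem grow_le {V : Submodule k E} [FiniteDimensional k V] (hC : Crv V) : ∃ C : ℕ, ∀ m, finrank k ↥(V ^ m) ≤ C * (m + 1) := by
  classical
  obtain ⟨x, hxV, hx⟩ := hC.tr
  have hx0 : ∀ f : k[X], f ≠ 0 → aeval x f ≠ 0 := fun f hf h0 => hf (transcendental_iff.1 hx _ h0)
  obtain ⟨Y, hY⟩ := (Submodule.fg_iff_finiteDimensional V).2 inferInstance
  let F := IntermediateField.adjoin k {x}
  have hYtop : IntermediateField.adjoin F (Y : Set E) = ⊤ := by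
    rw [eq_top_iff]
    intro y _
    have h1 : y ∈ (IntermediateField.adjoin k (V : Set E)) := by rw [hC.gen]; trivial
    have h2 : IntermediateField.adjoin k (V : Set E) ≤
        (IntermediateField.adjoin F (Y : Set E)).restrictScalars k := by
      rw [IntermediateField.adjoin_le_iff]
      intro z hz
      have hz' : z ∈ Submodule.span k (Y : Set E) := by rw [hY]; exact hz
      have h3 : Submodule.span k (Y : Set E) ≤
          Subalgebra.toSubmodule ((IntermediateField.adjoin F (Y : Set E)).restrictScalars k).toSubalgebra := by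
        rw [Submodule.span_le]
        intro w hw
        exact IntermediateField.subset_adjoin F (Y : Set E) hw
      exact h3 hz'
    exact h2 h1
  have hfin : FiniteDimensional F (⊤ : IntermediateField F E) := by
    rw [← hYtop]
    exact IntermediateField.finiteDimensional_adjoin fun y _ => (hC.alg x y hx).isIntegral
  have hfinE : FiniteDimensional F E :=
    (IntermediateField.topEquiv (F := F) (E := E)).toLinearEquiv.finiteDimensional
  obtain ⟨S, hS⟩ := Module.Finite.fg_top (R := F) (M := E)
  let B : Finset E := insert 1 S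
  have h1B : (1 : E) ∈ B := Finset.mem_insert_self _ _
  have hB : Submodule.span F (B : Set E) = ⊤ := by
    rw [eq_top_iff, ← hS]
    exact Submodule.span_mono (by intro x hx; exact Finset.mem_coe.2 (Finset.mem_insert_of_mem hx))
  have H : ∀ y : E, ∃ (f : k[X]) (c : ℕ), f ≠ 0 ∧ aeval x f * y ∈ gT (k := k) x B c := by
    intro y
    have hy : y ∈ Submodule.span F (B : Set E) := by rw [hB]; trivial
    induction hy using Submodule.span_induction with
    | mem y hy => exact ⟨1, 0, one_ne_zero, by rw [map_one, one_mul]; exact gT_mem x B hy⟩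
    | zero => exact ⟨1, 0, one_ne_zero, by rw [mul_zero]; exact Submodule.zero_mem _⟩
    | add y z _ _ hy hz =>
      obtain ⟨f, c, hf, hc⟩ := hy
      obtain ⟨g, d, hg, hd⟩ := hz
      refine ⟨f * g, c + d + g.natDegree + f.natDegree, mul_ne_zero hf hg, ?_⟩
      rw [mul_add]
      refine Submodule.add_mem _ ?_ ?_
      · rw [map_mul, mul_comm (aeval x f), mul_assoc]
        exact gT_mono x B (by omega) (gT_mul x B g le_rfl hc)
      · rw [map_mul, mul_assoc]
        exact gT_mono x B (by omega) (gT_mul x B f le_rfl hd)
    | smul a y _ hy =>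
      obtain ⟨f, c, hf, hc⟩ := hy
      obtain ⟨g, d, hgd⟩ := (IntermediateField.mem_adjoin_simple_iff k (a : E)).1 a.2
      by_cases hd : aeval x d = 0
      · refine ⟨f, c, hf, ?_⟩
        have h0 : (a : E) = 0 := by rw [hgd, hd, div_zero]
        have h1 : a • y = (a : E) * y := rfl
        rw [h1, h0, zero_mul, mul_zero]
        exact Submodule.zero_mem _
      · have hd0 : d ≠ 0 := by rintro rfl; exact hd (map_zero _)
        refine ⟨d * f, c + g.natDegree, mul_ne_zero hd0 hf, ?_⟩
        have e : aeval x (d * f) * a • y = aeval x g * (aeval x f * y) := by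
          have h1 : a • y = (a : E) * y := rfl
          rw [h1, hgd, map_mul]
          field_simp
        rw [e]
        exact gT_mul x B g le_rfl hc
  obtain ⟨f, c, hf, hc⟩ := g_common x B H ((Y ×ˢ B).image fun p => p.1 * p.2)
  -- multiplication by f * y
  have step0 : ∀ y ∈ V, ∀ b ∈ B, aeval x f * (y * b) ∈ gT (k := k) x B c := by
    intro y hy b hb
    rw [← hY] at hy
    induction hy using Submodule.span_induction with
    | mem y hy => exact hc _ (Finset.mem_image.2 ⟨(y, b), Finset.mem_product.2 ⟨hy, hb⟩, rfl⟩)
    | zero => rw [zero_mul, mul_zero]; exact Submodule.zero_mem _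
    | add y z _ _ hy hz => rw [add_mul, mul_add]; exact Submodule.add_mem _ hy hz
    | smul a y _ hy => rw [smul_mul_assoc, mul_smul_comm]; exact Submodule.smul_mem _ _ hy
  have step : ∀ n, ∀ y ∈ V, ∀ t ∈ gT (k := k) x B n, aeval x f * (y * t) ∈ gT (k := k) x B (n + c) := by
    intro n y hy t ht
    have ht' : t ∈ Submodule.span k
      (((Finset.range (n + 1) ×ˢ B).image fun p => x ^ p.1 * p.2 : Finset E) : Set E) := ht
    induction ht' using Submodule.span_induction with
    | mem z hz =>
      rw [Finset.mem_coe, Finset.mem_image] at hz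
      obtain ⟨⟨s, b⟩, hp, rfl⟩ := hz
      rw [Finset.mem_product, Finset.mem_range] at hp
      have h2 := gT_mul x B (n := c) (a := n) ((X : k[X]) ^ s) (by
        refine (natDegree_X_pow_le s).trans ?_
        have := hp.1
        dsimp only at this
        omega) (step0 y hy b hp.2)
      rw [add_comm n c]
      have e : aeval x f * (y * (x ^ s * b)) = aeval x ((X : k[X]) ^ s) * (aeval x f * (y * b)) := by
        rw [map_pow, aeval_X]; ring
      dsimp only
      rw [e]
      exact h2
    | zero => rw [mul_zero, mul_zero]; exact Submodule.zero_mem _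
    | add y z _ _ hy hz => rw [mul_add, mul_add]; exact Submodule.add_mem _ (hy ‹_›) (hz ‹_›)
    | smul a y _ hy => rw [mul_smul_comm, mul_smul_comm]; exact Submodule.smul_mem _ _ (hy ‹_›)
  have main : ∀ m : ℕ, V ^ m ≤ (gT (k := k) x B (c * m)).comap (LinearMap.mulLeft k (aeval x f ^ m)) := by
    intro m
    induction m with
    | zero =>
      rw [pow_zero, Submodule.one_eq_span, Submodule.span_le]
      intro y hy
      rw [Set.mem_singleton_iff] at hy
      subst hy
      simp only [pow_zero, Submodule.comap_coe, Set.mem_preimage, LinearMap.mulLeft_apply, SetLike.mem_coe, mul_one, mul_zero]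
      exact gT_mem x B h1B
    | succ m ih =>
      rw [pow_succ, Submodule.mul_le]
      intro z hz y hy
      have h2 := ih hz
      rw [Submodule.mem_comap, LinearMap.mulLeft_apply] at h2 ⊢
      have h3 := step (c * m) y hy _ h2
      have e : aeval x f ^ (m + 1) * (z * y) = aeval x f * (y * (aeval x f ^ m * z)) := by ring
      rw [e, mul_add, mul_one]
      exact h3
  refine ⟨(c + 1) * B.card, fun m => ?_⟩
  have _ := gT_fd (k := k) x B (c * m)
  have hinj : Function.Injective (LinearMap.mulLeft k (aeval x f ^ m)) := by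
    intro y z hyz
    rw [LinearMap.mulLeft_apply, LinearMap.mulLeft_apply] at hyz
    exact mul_left_cancel₀ (pow_ne_zero m (hx0 f hf)) hyz
  have h2 : finrank k ↥(V ^ m) = finrank k ↥((V ^ m).map (LinearMap.mulLeft k (aeval x f ^ m))) :=
    ((Submodule.equivMapOfInjective _ hinj (V ^ m)).finrank_eq)
  rw [h2]
  have h3 : (V ^ m).map (LinearMap.mulLeft k (aeval x f ^ m)) ≤ gT (k := k) x B (c * m) :=
    Submodule.map_le_iff_le_comap.2 (main m)
  refine (Submodule.finrank_mono h3).trans ((gT_finrank x B (c * m)).trans ?_)
  have h4 : c * m + 1 ≤ (c + 1) * (m + 1) := by nlinarith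
  calc (c * m + 1) * B.card ≤ ((c + 1) * (m + 1)) * B.card := Nat.mul_le_mul_right _ h4
    _ = (c + 1) * B.card * (m + 1) := by ring

end

end Pool.Agent.TRI
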