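import Pool.Agent.Helper6.TRI.GDefs
import Pool.Agent.Helper20.DER.Ext
import Pool.Agent.Helper21.TS.Line

/-!
# TRI block G3: the Jacobian form vanishes on the curve
-/

set_option autoImplicit false

namespace Pool.Agent.TRI

open Module MvPolynomial

universe u

/-- the chain rule -/
private theorem jz_chain {k₀ E σ : Type*} [Field k₀] [Field E] [Algebra k₀ E] [Fintype σ] (η : Derivation k₀ E E) (ξ : σ → E)
    (g : MvPolynomial σ k₀) : η (aeval ξ g) = ∑ b, aeval ξ (pderiv b g) * η (ξ b) := by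
  classical
  induction g using MvPolynomial.induction_on with
  | C a => simp
  | add p q hp hq =>
    simp only [map_add, hp, hq, add_mul, Finset.sum_add_distrib]
  | mul_X p n hp =>
    rw [map_mul, aeval_X, Derivation.leibniz, hp]
    simp only [Derivation.leibniz, map_add, smul_eq_mul, map_mul, aeval_X, pderiv_X]
    rw [Finset.mul_sum]
    have h1 : ∀ b : σ, (aeval ξ p * aeval ξ ((Pi.single b (1 : MvPolynomial σ k₀) : σ → MvPolynomial σ k₀) n) + ξ n * aeval ξ (pderiv b p)) * η (ξ b)
        = (if b = n then aeval ξ p * η (ξ n) else 0) + ξ n * (aeval ξ (pderiv b p) * η (ξ b)) := by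
      intro b
      by_cases hb : b = n
      · subst hb; simp; ring
      · rw [if_neg hb, Pi.single_eq_of_ne (Ne.symm hb)]; simp; ring
    rw [Finset.sum_congr rfl fun b _ => h1 b, Finset.sum_add_distrib, Finset.sum_ite_eq' Finset.univ n]
    simp

/-- the rows: the gradients, `u`, `v` and the unit vector -/
private noncomputable def jzM {E : Type*} [Field E] {n : ℕ} (G : Fin n → Fin (n + 3) → E) (c : Fin (n + 3)) (u v : Fin (n + 3) → E) :
    Matrix (Fin (n + 3)) (Fin (n + 3)) E := Matrix.of fun a b => (Fin.append G ![u, v, Pi.single c 1] : Fin (n + 3) → Fin (n + 3) → E) a b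

private theorem jzM_update {E : Type*} [Field E] {n : ℕ} (G : Fin n → Fin (n + 3) → E) (c : Fin (n + 3)) (u v : Fin (n + 3) → E) :
    jzM G c u v = Matrix.updateRow (Matrix.updateRow (jzM G c 0 0) (Fin.natAdd n 0) u) (Fin.natAdd n 1) v := by
  funext a b
  refine Fin.addCases (fun i => ?_) (fun i => ?_) a
  · have h1 : Fin.castAdd 3 i ≠ Fin.natAdd n 0 := by
      intro h; have := congrArg Fin.val h; simp at this; omega
    have h2 : Fin.castAdd 3 i ≠ Fin.natAdd n 1 := by
      intro h; have := congrArg Fin.val h; simp at this; omega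
    rw [Matrix.updateRow_ne h2, Matrix.updateRow_ne h1]
    simp [jzM]
  · fin_cases i
    · have h2 : (Fin.natAdd n (0 : Fin 3)) ≠ Fin.natAdd n 1 := by
        intro h; have := congrArg Fin.val h; simp at this
      change jzM G c u v (Fin.natAdd n (0 : Fin 3)) b = _
      change _ = Matrix.updateRow (Matrix.updateRow (jzM G c 0 0) (Fin.natAdd n 0) u) (Fin.natAdd n 1) v (Fin.natAdd n (0 : Fin 3)) b
      rw [Matrix.updateRow_ne h2, Matrix.updateRow_self]
      simp [jzM]
    · change jzM G c u v (Fin.natAdd n (1 : Fin 3)) b = Matrix.updateRow _ (Fin.natAdd n 1) v (Fin.natAdd n (1 : Fin 3)) b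
      rw [Matrix.updateRow_self]
      simp [jzM]
    · have h1 : (Fin.natAdd n (2 : Fin 3)) ≠ Fin.natAdd n 0 := by
        intro h; have := congrArg Fin.val h; simp at this
      have h2 : (Fin.natAdd n (2 : Fin 3)) ≠ Fin.natAdd n 1 := by
        intro h; have := congrArg Fin.val h; simp at this
      change jzM G c u v (Fin.natAdd n (2 : Fin 3)) b =
        Matrix.updateRow (Matrix.updateRow (jzM G c 0 0) (Fin.natAdd n 0) u) (Fin.natAdd n 1) v (Fin.natAdd n (2 : Fin 3)) b
      rw [Matrix.updateRow_ne h2, Matrix.updateRow_ne h1]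
      simp [jzM]

/-- linearity in the two rows -/
private theorem jzM_det {E : Type*} [Field E] {n : ℕ} (G : Fin n → Fin (n + 3) → E) (c : Fin (n + 3)) {q : ℕ} (w : Fin q → Fin (n + 3) → E)
    (α β : Fin q → E) : (jzM G c (∑ i, α i • w i) (∑ j, β j • w j)).det = ∑ i, ∑ j, α i * β j * (jzM G c (w i) (w j)).det := by
  classical
  have h1 : ∀ (M : Matrix (Fin (n + 3)) (Fin (n + 3)) E) (i₀ : Fin (n + 3)) (s : Finset (Fin q)) (γ : Fin q → E),
      (Matrix.updateRow M i₀ (∑ i ∈ s, γ i • w i)).det = ∑ i ∈ s, γ i * (Matrix.updateRow M i₀ (w i)).det := by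
    intro M i₀ s γ
    induction s using Finset.induction_on with
    | empty =>
      rw [Finset.sum_empty, Finset.sum_empty]
      exact Matrix.det_eq_zero_of_row_eq_zero i₀ fun j => by rw [Matrix.updateRow_self]; rfl
    | insert i s hi ih => rw [Finset.sum_insert hi, Finset.sum_insert hi, Matrix.det_updateRow_add, Matrix.det_updateRow_smul, ih]
  have hne : (Fin.natAdd n (0 : Fin 3)) ≠ Fin.natAdd n 1 := by
    intro h; have := congrArg Fin.val h; simp at this
  rw [jzM_update, h1]
  have h2 : ∀ j, (Matrix.updateRow (Matrix.updateRow (jzM G c 0 0) (Fin.natAdd n 0) (∑ i, α i • w i)) (Fin.natAdd n 1) (w j)).det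
      = ∑ i, α i * (jzM G c (w i) (w j)).det := by
    intro j
    have h3 : ∀ x, Matrix.updateRow (Matrix.updateRow (jzM G c 0 0) (Fin.natAdd n 0) x) (Fin.natAdd n 1) (w j) =
        Matrix.updateRow (Matrix.updateRow (jzM G c 0 0) (Fin.natAdd n 1) (w j)) (Fin.natAdd n 0) x := fun x =>
      Function.update_comm hne _ _ _
    rw [h3, h1]
    refine Finset.sum_congr rfl fun i _ => ?_
    rw [← h3, ← jzM_update]
  symm
  rw [Finset.sum_comm]
  refine Finset.sum_congr rfl fun j _ => ?_
  rw [h2, Finset.mul_sum]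
  refine Finset.sum_congr rfl fun i _ => ?_
  ring

/-- two equal rows -/
private theorem jzM_self {E : Type*} [Field E] {n : ℕ} (G : Fin n → Fin (n + 3) → E) (c : Fin (n + 3)) (u : Fin (n + 3) → E) :
    (jzM G c u u).det = 0 := by
  have hne : (Fin.natAdd n (0 : Fin 3)) ≠ Fin.natAdd n 1 := by
    intro h; have := congrArg Fin.val h; simp at this
  refine Matrix.det_zero_of_row_eq hne ?_
  funext b
  simp [jzM]

/-- all rows kill two independent vectors -/
private theorem jzM_zero {E : Type*} [Field E] {n : ℕ} (G : Fin n → Fin (n + 3) → E) (c : Fin (n + 3)) (u v x y : Fin (n + 3) → E)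
    (hGx : ∀ t, ∑ b, G t b * x b = 0) (hGy : ∀ t, ∑ b, G t b * y b = 0) (hux : ∑ b, u b * x b = 0) (huy : ∑ b, u b * y b = 0)
    (hvx : ∑ b, v b * x b = 0) (hvy : ∑ b, v b * y b = 0) (j : Fin (n + 3)) (hxj : x j = 1) (hyj : y j = 0) (hy : y ≠ 0)
    (hc : x c = 0 → y c = 0) : (jzM G c u v).det = 0 := by
  obtain ⟨z, hz0, hGz, huz, hvz, hzc⟩ : ∃ z : Fin (n + 3) → E, z ≠ 0 ∧ (∀ t, ∑ b, G t b * z b = 0) ∧ ∑ b, u b * z b = 0 ∧
      ∑ b, v b * z b = 0 ∧ z c = 0 := by
    by_cases hxc : x c = 0
    · refine ⟨x, ?_, hGx, hux, hvx, hxc⟩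
      rintro rfl
      simp at hxj
    · have h1 : ∀ w : Fin (n + 3) → E, ∑ b, w b * x b = 0 → ∑ b, w b * y b = 0 → ∑ b, w b * (x c * y b - y c * x b) = 0 := by
        intro w hwx hwy
        have h2 : ∀ b, w b * (x c * y b - y c * x b) = x c * (w b * y b) - y c * (w b * x b) := fun b => by ring
        rw [Finset.sum_congr rfl fun b _ => h2 b, Finset.sum_sub_distrib, ← Finset.mul_sum, ← Finset.mul_sum, hwx, hwy]
        ring
      refine ⟨fun b => x c * y b - y c * x b, ?_, fun t => h1 _ (hGx t) (hGy t), h1 _ hux huy, h1 _ hvx hvy, by ring⟩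
      intro h
      have h2 := congrFun h j
      simp only [hxj, hyj, Pi.zero_apply] at h2
      have h3 : y c = 0 := by linear_combination -h2
      refine hy ?_
      funext b
      have h4 := congrFun h b
      simp only [h3, Pi.zero_apply] at h4
      have h5 : x c * y b = 0 := by linear_combination h4
      rw [Pi.zero_apply]
      exact (mul_eq_zero.1 h5).resolve_left hxc
  refine Matrix.exists_mulVec_eq_zero_iff.1 ⟨z, hz0, ?_⟩
  funext a
  rw [Matrix.mulVec, Pi.zero_apply]
  change ∑ b, jzM G c u v a b * z b = 0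
  refine Fin.addCases (fun i => ?_) (fun i => ?_) a
  · simpa [jzM] using hGz i
  · fin_cases i
    · change ∑ b, jzM G c u v (Fin.natAdd n (0 : Fin 3)) b * z b = 0
      simpa [jzM] using huz
    · change ∑ b, jzM G c u v (Fin.natAdd n (1 : Fin 3)) b * z b = 0
      simpa [jzM] using hvz
    · change ∑ b, jzM G c u v (Fin.natAdd n (2 : Fin 3)) b * z b = 0
      have h1 : ∀ b, jzM G c u v (Fin.natAdd n (2 : Fin 3)) b = if b = c then 1 else 0 := by
        intro b
        simp [jzM, Pi.single_apply]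
      rw [Finset.sum_congr rfl fun b _ => by rw [h1 b, ite_mul, zero_mul, one_mul], Finset.sum_ite_eq']
      simpa using hzc

theorem jac_zero {k₀ : Type u} [Field k₀] [CharZero k₀] {N : ℕ} {I : Ideal (MvPolynomial (Fin (N + 1)) k₀)} {n : ℕ} (hn : n + 2 = N)
    (f : Fin n → MvPolynomial (Fin (N + 1)) k₀) (e : Fin n → ℕ) (hf : ∀ t, f t ∈ I)
    (hfe : ∀ t, (f t).IsHomogeneous (e t)) {k E : Type u} [Field k] [Field E] [Algebra k₀ k] [Algebra k E] [Algebra k₀ E]
    [IsScalarTower k₀ k E] {q : ℕ} (l : Fin q → Fin (N + 1) → k) (ξ : Fin (N + 1) → E) (h1 : ∃ j, ξ j = 1)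
    (ht : ∃ j, Transcendental k (ξ j)) (hξ : OnX I ξ) (hl : ∀ i, lv (l i) ξ ≠ 0) (a b : Fin q → ℤ) (ha : ∑ i, a i = 0)
    (hb : ∑ i, b i = 0) (hwa : IsAlgebraic k (wv l ξ a)) (hwb : IsAlgebraic k (wv l ξ b)) (c : Fin (N + 1)) :
    aeval ξ (∑ p : Fin q × Fin q, C (((a p.1 * b p.2 : ℤ) : k)) * jac f l c p.1 p.2) = 0 := by
  classical
  subst hn
  have hchk : CharZero k := charZero_of_injective_algebraMap (algebraMap k₀ k).injective
  have hchE : CharZero E := charZero_of_injective_algebraMap (algebraMap k₀ E).injective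
  obtain ⟨j₀, hj₀⟩ := h1
  obtain ⟨j₁, hj₁⟩ := ht
  -- a derivation
  obtain ⟨η, hη⟩ := Helper20.DER.exists_derivation (k := k) (K := E) (t := fun _ : Unit => ξ j₁)
    ((algebraicIndependent_unique_type_iff).2 hj₁) (fun _ => 1)
  have hη1 : η (ξ j₁) = 1 := hη ()
  let y : Fin (n + 3) → E := fun j => η (ξ j)
  have hy0 : y j₀ = 0 := by
    change η (ξ j₀) = 0
    rw [hj₀, Derivation.map_one_eq_zero]
  have hy : y ≠ 0 := by
    intro h
    have := congrFun h j₁
    change η (ξ j₁) = 0 at this
    rw [hη1] at this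
    exact one_ne_zero this
  let η₀ : Derivation k₀ E E := η.restrictScalars k₀
  -- the gradients
  let G : Fin n → Fin (n + 3) → E := fun t => grad (f t) ξ
  have hGy : ∀ t, ∑ b, G t b * y b = 0 := by
    intro t
    have h2 := jz_chain η₀ ξ (f t)
    rw [hξ _ (hf t), map_zero] at h2
    exact h2.symm
  have hGx : ∀ t, ∑ b, G t b * ξ b = 0 := by
    intro t
    have h2 := congrArg (aeval ξ) (hfe t).sum_X_mul_pderiv
    rw [map_nsmul, hξ _ (hf t), smul_zero, map_sum] at h2
    rw [← h2]
    refine Finset.sum_congr rfl fun b _ => ?_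
    rw [map_mul, aeval_X, mul_comm]
    rfl
  -- the linear forms
  let w : Fin q → Fin (n + 3) → E := fun i b => algebraMap k E (l i b)
  have hw : ∀ i, ∑ b, w i b * ξ b = lv (l i) ξ := fun i => rfl
  have hwy : ∀ i, ∑ b, w i b * y b = η (lv (l i) ξ) := by
    intro i
    unfold lv
    rw [map_sum]
    refine Finset.sum_congr rfl fun b _ => ?_
    rw [Derivation.leibniz, Derivation.map_algebraMap, smul_zero, add_zero, smul_eq_mul]
  have key : ∀ s : Fin q → ℤ, ∑ i, s i = 0 → IsAlgebraic k (wv l ξ s) →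
      ∑ b, (∑ i, ((s i : E) / lv (l i) ξ) • w i) b * ξ b = 0 ∧ ∑ b, (∑ i, ((s i : E) / lv (l i) ξ) • w i) b * y b = 0 := by
    intro s hs hws
    have h2 : ∀ z : Fin (n + 3) → E, ∑ b, (∑ i, ((s i : E) / lv (l i) ξ) • w i) b * z b =
        ∑ i, ((s i : E) / lv (l i) ξ) * ∑ b, w i b * z b := by
      intro z
      have h3 : ∀ b, (∑ i, ((s i : E) / lv (l i) ξ) • w i) b * z b = ∑ i, ((s i : E) / lv (l i) ξ) * (w i b * z b) := by
        intro b
        rw [Finset.sum_apply, Finset.sum_mul]
        refine Finset.sum_congr rfl fun i _ => ?_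
        rw [Pi.smul_apply, smul_eq_mul, mul_assoc]
      rw [Finset.sum_congr rfl fun b _ => h3 b, Finset.sum_comm]
      refine Finset.sum_congr rfl fun i _ => ?_
      rw [Finset.mul_sum]
    constructor
    · rw [h2]
      have h3 : ∀ i, ((s i : E) / lv (l i) ξ) * ∑ b, w i b * ξ b = (s i : E) := by
        intro i
        rw [hw, div_mul_cancel₀ _ (hl i)]
      rw [Finset.sum_congr rfl fun i _ => h3 i]
      exact_mod_cast congrArg (Int.cast : ℤ → E) hs
    · rw [h2]
      have h3 := Helper21.TS.log_der (k₀ := k) Finset.univ η (fun i => lv (l i) ξ) hl s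
      have h4 : η (∏ i, lv (l i) ξ ^ s i) = 0 := by
        refine Helper21.TS.der_zero_of_algebraic (k₀ := k) η ∅ (by simp) _ ?_
        exact hws.extendScalars (algebraMap k (IntermediateField.adjoin k (∅ : Set E))).injective
      rw [h4] at h3
      have h5 : (∏ i, lv (l i) ξ ^ s i) ≠ 0 := Finset.prod_ne_zero_iff.2 fun i _ => zpow_ne_zero _ (hl i)
      have h6 := (mul_eq_zero.1 h3.symm).resolve_left h5
      rw [← h6]
      refine Finset.sum_congr rfl fun i _ => ?_
      rw [hwy]
      ring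
  obtain ⟨ka1, ka2⟩ := key a ha hwa
  obtain ⟨kb1, kb2⟩ := key b hb hwb
  have hdet := jzM_zero G c (∑ i, ((a i : E) / lv (l i) ξ) • w i) (∑ i, ((b i : E) / lv (l i) ξ) • w i) ξ y hGx hGy ka1 ka2 kb1 kb2
    j₀ hj₀ hy0 hy (by
      intro h
      change η (ξ c) = 0
      rw [h, map_zero])
  rw [jzM_det] at hdet
  -- evaluation of the Jacobian forms
  have hjac : ∀ i j, aeval ξ (jac f l c i j) = (jzM G c (w i) (w j)).det *
      ∏ m ∈ Finset.univ.filter (fun m => m ≠ i ∧ m ≠ j), lv (l m) ξ := by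
    intro i j
    unfold jac
    rw [dif_pos (show n + 3 = n + 2 + 1 from rfl), map_mul, map_prod]
    congr 1
    · rw [AlgHom.map_det]
      congr 1
      funext s t
      refine Fin.addCases (m := n) (n := 3) (fun i' => ?_) (fun i' => ?_) s
      · simp [jzM, G, grad, aeval_map_algebraMap]
      · fin_cases i'
        · simp [jzM, w]
        · simp [jzM, w]
        · simp [jzM, Pi.single_apply, apply_ite]
    · refine Finset.prod_congr rfl fun m _ => ?_
      simp [lv]
  rw [map_sum, Fintype.sum_prod_type]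
  have hprod : ∀ i j, ((a i : E) * (b j : E)) * aeval ξ (jac f l c i j) =
      (∏ m, lv (l m) ξ) * (((a i : E) / lv (l i) ξ) * ((b j : E) / lv (l j) ξ) * (jzM G c (w i) (w j)).det) := by
    intro i j
    rw [hjac]
    by_cases hij : i = j
    · subst hij
      rw [jzM_self]
      ring
    · have h2 : ∏ m, lv (l m) ξ = lv (l i) ξ * lv (l j) ξ * ∏ m ∈ Finset.univ.filter (fun m => m ≠ i ∧ m ≠ j), lv (l m) ξ := by
        rw [← Finset.mul_prod_erase Finset.univ _ (Finset.mem_univ i),
          ← Finset.mul_prod_erase (Finset.univ.erase i) _ (Finset.mem_erase.2 ⟨Ne.symm hij, Finset.mem_univ j⟩), mul_assoc]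
        congr 2
        refine Finset.prod_congr ?_ fun _ _ => rfl
        ext m
        simp only [Finset.mem_erase, Finset.mem_univ, and_true, Finset.mem_filter, true_and]
        tauto
      rw [h2]
      have hi := hl i
      have hj := hl j
      field_simp
  have hfin : ∀ i j, aeval ξ (C (((a i * b j : ℤ) : k)) * jac f l c i j) = ((a i : E) * (b j : E)) * aeval ξ (jac f l c i j) := by
    intro i j
    rw [map_mul, aeval_C, map_intCast]
    push_cast
    ring
  rw [Finset.sum_congr rfl fun i _ => Finset.sum_congr rfl fun j _ => by rw [hfin i j, hprod i j]]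
  simp only [← Finset.mul_sum]
  rw [hdet, mul_zero]

end Pool.Agent.TRI
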